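import Pool.Agent.Lib.MP_44c96e_nt.Final

/-! MP_44c96e_nt, Q1. Let f(x) = x + (decimal digit sum of x). For all positive integers m, n the
orbit m, f(m), f(f(m)), ... contains infinitely many multiples of n if and only if gcd(n, 9)
divides m. With m = n: for every n there is k ≥ 1 with n ∣ f^k(n), that is a(n) ≠ 0. -/

namespace Pool.Agent.Results.MP_44c96e_nt.AllMultiples

theorem result (m n : ℕ) (hm : 1 ≤ m) (hn : 1 ≤ n) :
    (∀ K : ℕ, ∃ k : ℕ, K ≤ k ∧ n ∣ (fun x : ℕ => x + (Nat.digits 10 x).sum)^[k] m) ↔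
      Nat.gcd n 9 ∣ m :=
  Pool.Agent.Lib.MP_44c96e_nt.main m n hm hn

/-- The question Q1 itself. -/
theorem question (n : ℕ) (hn : 1 ≤ n) :
    ∃ k : ℕ, 1 ≤ k ∧ n ∣ (fun x : ℕ => x + (Nat.digits 10 x).sum)^[k] n :=
  (result n n hn hn).mpr (Nat.gcd_dvd_left n 9) 1

end Pool.Agent.Results.MP_44c96e_nt.AllMultiples
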